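import Pool.Agent.K6.H1.QP.Main
import Pool.Agent.K6.H1.QP.CH

/-!
# Non-selective q-points Tukey below finite Fubini iterates of p-points

The definitions are in `Pool.Agent.K6.H1.QP.Defs`.

A q-point `V` Tukey below a finite Fubini iterate `U` of p-points is Rudin-Keisler below `U`
(`QP/Tuk.lean`; the fusion structure on `U` has finitely many level functions). By induction on the
depth, such a `V` is selective or there are infinitely many non-isomorphic selective ultrafilters:
write `V` as a limit along a p-point `W` of ultrafilters `Y n` below iterates of smaller depth; if
`V` is none of the `Y n`, these can be separated by disjoint sets, and then almost all of them are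
q-points and each isomorphism class is `W`-small (`QP/Core.lean`).

Conversely, the Fubini limit of pairwise non-isomorphic selective ultrafilters along a selective
ultrafilter is a q-point: the images of the columns under a finite-to-one function are distinct
p-points, so they can be separated. It is not selective, and it is an iterate of depth two.
-/

set_option autoImplicit false

namespace Pool.Agent.Results.MP_21276c_lc.ExactCondition

open Pool.Agent.K6.H1.QP

/-- (1) In ZFC: there are a finite Fubini iterate `U` of p-points and a q-point `V` which is Tukey
reducible to `U` and not selective if and only if there are infinitely many pairwise non-isomorphic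
selective ultrafilters.

(2) The continuum hypothesis implies that there are such `U` and `V`, even with `U = V` an iterate
of depth two. -/
theorem result :
    ((∃ (k : ℕ) (U V : Ultrafilter ℕ), Iterate k U ∧ IsQPoint V ∧ TukeyLE V U ∧ ¬ IsSelective V) ↔
      ∃ s : ℕ → Ultrafilter ℕ, (∀ n, IsSelective (s n)) ∧
        ∀ m n, m ≠ n → ¬ Isomorphic (s m) (s n)) ∧
    ((Cardinal.continuum : Cardinal.{0}) = Cardinal.aleph 1 →
      ∃ U : Ultrafilter ℕ, Iterate 1 U ∧ IsQPoint U ∧ TukeyLE U U ∧ ¬ IsSelective U) := by
  refine ⟨⟨?_, ?_⟩, fun h => counterexample (infSel_of_ch h)⟩
  · rintro ⟨k, U, V, hU, hV, hT, hns⟩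
    exact infSel_of hU hV hT hns
  · intro h
    obtain ⟨U, h1, h2, h3, h4⟩ := counterexample h
    exact ⟨1, U, U, h1, h2, h3, h4⟩

end Pool.Agent.Results.MP_21276c_lc.ExactCondition
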